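import Pool.Agent.H731.GS.Main

/-!
# Weak approximation for 100% of the complete intersections in Grassmannians

Let `G = G(q+1, q+n+1)` be a Grassmannian over `ℚ` in its Plücker embedding, `n ≥ 3`, and let
`d_1, …, d_r ≥ 2` with `d_1 + ⋯ + d_r ≤ n` (`r ≥ 1`). We consider the systems `F = (F_1, …, F_r)` of forms of degrees
`d_1, …, d_r` in the Plücker coordinates with integral coefficients of absolute value at most `H`, and
the complete intersections `X_F = G ∩ {F_1 = … = F_r = 0}`; the smooth ones among them are Fano varieties.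
A positive proportion of the `X_F` has points over the real numbers and over all the `p`-adic fields, and
there is a function `m(H) → ∞` such that for 100% of these `X_F` (as `H → ∞`) the rational points are dense to
precision `1 / m(H)` in the product of the sets of the local points at the real place and at the primes up to
`m(H)`; in particular 100% of the `X_F` which are everywhere locally soluble have rational points, as
predicted by the conjecture that the Brauer-Manin obstruction is the only one.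

The same is proved for every variety `V` which is covered by unimodular charts swept out by linear spaces
`ℙⁿ` (`Swept`): for instance for rational scrolls, i.e. for projective bundles over a projective space or over a
Grassmannian.
-/

set_option autoImplicit false

namespace Pool.Agent.Results.MP_03ef3d_ag.InGrassmannians100

open Filter Topology

/-- A projective variety with homogeneous coordinates indexed by `ι`, given by the sets of the (nonzero)
coordinate vectors of its points over `ℚ`, `ℝ` and all `ℚ_[p]`. -/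
structure Variety (ι : Type) where
  Q : Set (ι → ℚ)
  R : Set (ι → ℝ)
  P : ∀ (p : ℕ) [Fact p.Prime], Set (ι → ℚ_[p])

/-- nonzero vectors, stable under multiplication by nonzero scalars -/
def Homogeneous {ι K : Type} [Field K] (X : Set (ι → K)) : Prop :=
  ∀ z ∈ X, z ≠ 0 ∧ ∀ c : K, c ≠ 0 → (fun i => c * z i) ∈ X

/-- Families of linear spaces `ℙⁿ`: for `c : C` the basis vectors `A c · j`, `j = 0, …, n`, whose coordinates are
integral polynomials in the parameters `y t`, `t : Y`. -/
abbrev Charts (C ι Y : Type) (n : ℕ) : Type := C → ι → Fin (n + 1) → MvPolynomial Y ℤ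

/-- the `i`-th coordinate of the `j`-th basis vector for the value `y` of the parameters -/
noncomputable def basis {C ι Y K : Type} [CommRing K] {n : ℕ} (A : Charts C ι Y n) (c : C) (y : Y → K)
    (i : ι) (j : Fin (n + 1)) : K :=
  MvPolynomial.aeval y (A c i j)

/-- the point with the coordinates `x` on the linear space with the parameters `y` -/
noncomputable def point {C ι Y K : Type} [CommRing K] {n : ℕ} (A : Charts C ι Y n) (c : C) (y : Y → K)
    (x : Fin (n + 1) → K) (i : ι) : K :=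
  ∑ j, basis A c y i j * x j

/-- `V` is swept out by linear spaces `ℙⁿ`, in finitely many unimodular charts: among the coordinates of the
point `point A c y x` are `x 0`, `± x j` (`j ≥ 1`) and `± y t x 0` (`one`, `dirx`, `diry`); up to scalars every real
and every `p`-adic point of `V` is `point A c y x` with `x 0 = 1` and with all `x j`, `y t` of absolute value at
most one (`coverR`, `coverP`); and for finitely many places and a linear space of a chart at each of them there is
a linear space over `ℚ` contained in `V`, with basis `B`, close to the given ones (`dense`). -/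
structure Swept {C ι Y : Type} {n : ℕ} (V : Variety ι) (A : Charts C ι Y n) : Prop where
  one : ∀ c, ∃ i, A c i 0 = 1 ∧ ∀ j : Fin n, A c i j.succ = 0
  dirx : ∀ c (j : Fin n), ∃ i, (A c i j.succ = 1 ∨ A c i j.succ = -1) ∧
    ∀ j', j' ≠ j.succ → A c i j' = 0
  diry : ∀ c (t : Y), ∃ i, (A c i 0 = MvPolynomial.X t ∨ A c i 0 = -MvPolynomial.X t) ∧
    ∀ j : Fin n, A c i j.succ = 0
  homR : Homogeneous V.R
  homP : ∀ (p : ℕ) [Fact p.Prime], Homogeneous (V.P p)
  neQ : ∀ z ∈ V.Q, z ≠ 0
  toR : ∀ z ∈ V.Q, (fun i => (z i : ℝ)) ∈ V.R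
  toP : ∀ (p : ℕ) [Fact p.Prime], ∀ z ∈ V.Q, (fun i => (z i : ℚ_[p])) ∈ V.P p
  coverR : ∀ z ∈ V.R, ∃ (a : ℝ) (c : C) (y : Y → ℝ) (x : Fin (n + 1) → ℝ), a ≠ 0 ∧
    (∀ t, |y t| ≤ 1) ∧ x 0 = 1 ∧ (∀ j, |x j| ≤ 1) ∧ z = fun i => a * point A c y x i
  coverP : ∀ (p : ℕ) [Fact p.Prime], ∀ z ∈ V.P p, ∃ (a : ℚ_[p]) (c : C) (y : Y → ℚ_[p])
    (x : Fin (n + 1) → ℚ_[p]), a ≠ 0 ∧ (∀ t, ‖y t‖ ≤ 1) ∧ x 0 = 1 ∧ (∀ j, ‖x j‖ ≤ 1) ∧
    z = fun i => a * point A c y x i
  dense : ∀ (w : ℕ) (c : ℕ → C) (y : ∀ (p : ℕ) [Fact p.Prime], Y → ℚ_[p]) (c₀ : C) (y₀ : Y → ℝ)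
    (ε : ℝ), 0 < ε → ∃ B : ι → Fin (n + 1) → ℚ,
    (∀ x : Fin (n + 1) → ℚ, x ≠ 0 → (fun i => ∑ j, B i j * x j) ∈ V.Q) ∧
    (∀ i j, |(B i j : ℝ) - basis A c₀ y₀ i j| < ε) ∧
    ∀ (p : ℕ) [Fact p.Prime], p ≤ w → ∀ i j, ‖(B i j : ℚ_[p]) - basis A (c p) (y p) i j‖ < ε

/-- The systems of `r` integral forms of degrees `d j` in the coordinates indexed by `ι`, with
coefficients of absolute value at most `H`. -/
def Systems (ι : Type) {r : ℕ} (d : Fin r → ℕ) (H : ℕ) : Set (Fin r → MvPolynomial ι ℤ) :=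
  {F | ∀ j, (F j).IsHomogeneous (d j) ∧ ∀ a, |(F j).coeff a| ≤ (H : ℤ)}

/-- The complete intersection `X_F = V ∩ {F_1 = … = F_r = 0}` has points over the real numbers and over all
the `p`-adic fields. -/
def LocallySoluble {ι : Type} {r : ℕ} (V : Variety ι) (F : Fin r → MvPolynomial ι ℤ) : Prop :=
  (∃ z ∈ V.R, ∀ j, MvPolynomial.aeval z (F j) = 0) ∧
    ∀ (p : ℕ) [Fact p.Prime], ∃ z ∈ V.P p, ∀ j, MvPolynomial.aeval z (F j) = 0

/-- Weak approximation for `X_F` with precision `1 / m` at the real place and at the primes up to `m`: for all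
families of points of `X_F` over the real numbers and over the `p`-adic fields there is a rational point of
`X_F` close to them. -/
def WeakApproximation {ι : Type} [Fintype ι] {r : ℕ} (V : Variety ι) (m : ℕ)
    (F : Fin r → MvPolynomial ι ℤ) : Prop :=
  ∀ (z : ∀ (p : ℕ) [Fact p.Prime], ι → ℚ_[p]) (y : ι → ℝ),
    (∀ (p : ℕ) [Fact p.Prime], z p ∈ V.P p ∧ ∀ j, MvPolynomial.aeval (z p) (F j) = 0) → y ∈ V.R →
    (∀ j, MvPolynomial.aeval y (F j) = 0) →
    ∃ x ∈ V.Q, (∀ j, MvPolynomial.aeval x (F j) = 0) ∧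
      (∀ (p : ℕ) [Fact p.Prime], p ≤ m → ∃ c : ℚ_[p], c ≠ 0 ∧
        ∀ i, ‖z p i - c * (x i : ℚ_[p])‖ ≤ ‖z p‖ / m) ∧
      ∃ c : ℝ, c ≠ 0 ∧ ∀ i, |y i - c * (x i : ℝ)| ≤ ‖y‖ / m

/-- The conclusion for a variety `V` and degrees `d j`: a positive proportion of the `X_F` is everywhere locally
soluble, and 100% of these satisfy weak approximation with precision `1 / m(H)`, `m(H) → ∞`. -/
def Holds {ι : Type} [Fintype ι] (V : Variety ι) {r : ℕ} (d : Fin r → ℕ) : Prop :=
  (∃ c : ℝ, 0 < c ∧ ∀ᶠ H : ℕ in atTop, c * ((Systems ι d H).ncard : ℝ) ≤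
    (({F | F ∈ Systems ι d H ∧ LocallySoluble V F} : Set _).ncard : ℝ)) ∧
  ∃ m : ℕ → ℕ, Tendsto m atTop atTop ∧ Tendsto (fun H : ℕ =>
    (({F | F ∈ Systems ι d H ∧ LocallySoluble V F ∧ WeakApproximation V (m H) F} : Set _).ncard : ℝ) /
    (({F | F ∈ Systems ι d H ∧ LocallySoluble V F} : Set _).ncard : ℝ)) atTop (𝓝 1)

/-- the indices of the Plücker coordinates of `G(k, N)`: the sets of `k` columns -/
abbrev Plucker (k N : ℕ) : Type := {I : Finset (Fin N) // I.card = k}

/-- the points of the Grassmannian `G(k, N)` over `K` in the Plücker embedding: the nonzero vectors of the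
maximal minors of the matrices with `k` rows and `N` columns -/
def grPoints (k N : ℕ) (K : Type) [Field K] : Set (Plucker k N → K) :=
  {z | z ≠ 0 ∧ ∃ M : Fin k → Fin N → K,
    z = fun I => Matrix.det (Matrix.of fun i j => M i (I.1.orderEmbOfFin I.2 j))}

/-- the Grassmannian `G(k, N)` -/
def Grassmannian (k N : ℕ) : Variety (Plucker k N) where
  Q := grPoints k N ℚ
  R := grPoints k N ℝ
  P := fun p _ => grPoints k N ℚ_[p]

/-- 100% of the everywhere locally soluble complete intersections of multidegree `(d_1, …, d_r)` in the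
Grassmannian `G(q + 1, q + n + 1)`, `d j ≥ 2`, `∑ d j ≤ n`, `n ≥ 3`, satisfy weak approximation with precision
`1 / m(H)`, `m(H) → ∞` (in particular they have rational points), and the same is true for all varieties
which are swept out by linear spaces `ℙⁿ`. -/
theorem result (n r : ℕ) (d : Fin r → ℕ) (hn : 3 ≤ n) (hr : 1 ≤ r) (hd : ∀ j, 2 ≤ d j)
    (hdn : ∑ j, d j ≤ n) :
    (∀ q : ℕ, Holds (Grassmannian (q + 1) (q + (n + 1))) d) ∧
    ∀ (C ι Y : Type) [Fintype C] [Fintype ι] [Fintype Y] (V : Variety ι) (A : Charts C ι Y n),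
      Nonempty C → Swept V A → Holds V d := by
  have key : ∀ (C ι Y : Type) [Fintype C] [Fintype ι] [Fintype Y] (V : Variety ι)
      (A : Charts C ι Y n), Nonempty C → Swept V A → Holds V d := by
    intro C ι Y _ _ _ V A hC hS
    obtain ⟨V', hV'⟩ : ∃ V' : Pool.Agent.T2H39.CV.Cone ι,
      V' = { Q := V.Q, R := V.R, P := V.P } := ⟨_, rfl⟩
    have hQ : V'.Q = V.Q := by rw [hV']
    have hR : V'.R = V.R := by rw [hV']
    have hP : ∀ (p : ℕ) [Fact p.Prime], V'.P p = V.P p := by intro p _; rw [hV']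
    have h1 : Pool.Agent.H731.GS.SweptC V' A := by
      refine ⟨⟨hS.one, hS.dirx, hS.diry⟩, ?_, fun p _ => ?_, ?_, ?_, fun p _ => ?_, ?_,
        fun p _ => ?_, ?_⟩
      · rw [hR]
        exact ⟨fun z hz => (hS.homR z hz).1, fun z hz => (hS.homR z hz).2⟩
      · rw [hP]
        exact ⟨fun z hz => (hS.homP p z hz).1, fun z hz => (hS.homP p z hz).2⟩
      · rw [hQ]
        exact hS.neQ
      · rw [hQ, hR]
        exact hS.toR
      · rw [hQ, hP]
        exact hS.toP p
      · rw [hR]
        exact hS.coverR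
      · rw [hP]
        exact hS.coverP p
      · rw [hQ]
        exact hS.dense
    have h2 := Pool.Agent.H731.GS.fFIN C ι Y n r d hC hn hr hd hdn V' A h1
    have hL : ∀ F : Fin r → MvPolynomial ι ℤ,
        Pool.Agent.H731.GS.LocSolV V' F ↔ LocallySoluble V F := by
      intro F
      unfold Pool.Agent.H731.GS.LocSolV LocallySoluble
      rw [hR]
      exact Iff.and Iff.rfl (forall_congr' fun p => forall_congr' fun _ => by rw [hP])
    have hW : ∀ (m : ℕ) (F : Fin r → MvPolynomial ι ℤ),
        Pool.Agent.H731.GS.WAV V' m F ↔ WeakApproximation V m F := by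
      intro m F
      unfold Pool.Agent.H731.GS.WAV WeakApproximation
      rw [hR, hQ]
      simp only [hP]
    have hSy : ∀ H : ℕ, Pool.Agent.H731.GS.Systems ι d H = Systems ι d H := fun _ => rfl
    simp only [hL, hW, hSy] at h2
    exact h2
  refine ⟨fun q => ?_, key⟩
  have h2 := Pool.Agent.H731.GS.fGRC q n
  have hG : ∀ (K : Type) [Field K], {z : Pool.Agent.T2H39.CV.Pl q (n + 1) → K | z ≠ 0 ∧
      ∃ A : Fin (q + 1) → Fin (q + (n + 1)) → K, z = Pool.Agent.T2H39.CV.pl A} =
      grPoints (q + 1) (q + (n + 1)) K := fun K _ => rfl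
  have hQ : (Pool.Agent.T2H39.CV.Gr q (n + 1)).Q = (Grassmannian (q + 1) (q + (n + 1))).Q := hG ℚ
  have hR : (Pool.Agent.T2H39.CV.Gr q (n + 1)).R = (Grassmannian (q + 1) (q + (n + 1))).R := hG ℝ
  have hP : ∀ (p : ℕ) [Fact p.Prime], (Pool.Agent.T2H39.CV.Gr q (n + 1)).P p =
      (Grassmannian (q + 1) (q + (n + 1))).P p := fun p _ => hG ℚ_[p]
  refine key (Pool.Agent.T2H39.CV.Pl q (n + 1)) (Plucker (q + 1) (q + (n + 1))) (Fin q × Fin n) _
    (Pool.Agent.H731.GS.GrA q n) ?_ ?_
  · obtain ⟨I, _, hI⟩ := Finset.exists_subset_card_eq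
      (s := (Finset.univ : Finset (Fin (q + (n + 1))))) (n := q + 1)
      (by rw [Finset.card_univ, Fintype.card_fin]; omega)
    exact ⟨⟨I, hI⟩⟩
  · refine ⟨h2.chart.one, h2.chart.dirx, h2.chart.diry, ?_, fun p _ => ?_, ?_, ?_, fun p _ => ?_,
      ?_, fun p _ => ?_, ?_⟩
    · rw [← hR]
      exact fun z hz => ⟨h2.coneR.ne z hz, h2.coneR.smul z hz⟩
    · rw [← hP]
      exact fun z hz => ⟨(h2.coneP p).ne z hz, (h2.coneP p).smul z hz⟩
    · rw [← hQ]
      exact h2.neQ
    · rw [← hQ, ← hR]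
      exact h2.toR
    · rw [← hQ, ← hP]
      exact h2.toP p
    · rw [← hR]
      exact h2.coverR
    · rw [← hP]
      exact h2.coverP p
    · rw [← hQ]
      exact h2.dense

end Pool.Agent.Results.MP_03ef3d_ag.InGrassmannians100
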