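import Pool.Agent.H888.SF.Pos

open Filter Topology MvPolynomial

namespace Pool.Agent.Results.MP_03ef3d_ag.SumsOfForms100

/-- Vectors consisting of `s` blocks; the block `i` has `n i` coordinates in `K`. -/
abbrev Vec {s : ℕ} (n : Fin s → ℕ) (K : Type) := ∀ i : Fin s, Fin (n i) → K

/-- The form `F` in `m` variables is nonsingular: its partial derivatives have no nontrivial common
zero over any field of characteristic zero. -/
def Nonsingular {m : ℕ} (F : MvPolynomial (Fin m) ℤ) : Prop :=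
  ∀ (K : Type) [Field K] [CharZero K] (x : Fin m → K), (∀ l, aeval x (pderiv l F) = 0) → x = 0

/-- `y` is (a vector of homogeneous coordinates of) a point over `K` of the hypersurface
`X_a : ∑ aᵢ Fᵢ(yᵢ) = 0`. -/
def IsPoint {s : ℕ} {n : Fin s → ℕ} (F : ∀ i, MvPolynomial (Fin (n i)) ℤ) (a : Fin s → ℤ) {K : Type}
    [Field K] (y : Vec n K) : Prop := y ≠ 0 ∧ ∑ i, (a i : K) * aeval (y i) (F i) = 0

/-- `X_a` has points over `ℝ` and over `ℚ_p` for every prime `p`. -/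
def ELS {s : ℕ} {n : Fin s → ℕ} (F : ∀ i, MvPolynomial (Fin (n i)) ℤ) (a : Fin s → ℤ) : Prop :=
  (∃ y : Vec n ℝ, IsPoint F a y) ∧ ∀ (p : ℕ) [Fact p.Prime], ∃ u : Vec n ℚ_[p], IsPoint F a u

/-- The everywhere locally soluble members of the family with `0 < |aᵢ| ≤ H`. -/
def elsSet {s : ℕ} {n : Fin s → ℕ} (F : ∀ i, MvPolynomial (Fin (n i)) ℤ) (H : ℕ) : Set (Fin s → ℤ) :=
  {a | (∀ i, a i ≠ 0 ∧ |a i| ≤ (H : ℤ)) ∧ ELS F a}

/-- The points with the coordinates `z` (over `K`) and `x` (over `ℚ`) of projective space are close to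
precision `δ`: `‖z - c x‖ ≤ δ ‖z‖` for some `c ≠ 0` in `K`, where `‖z‖` is the largest absolute value of
a coordinate. -/
def Close (δ : ℝ) {s : ℕ} {n : Fin s → ℕ} {K : Type} [NormedField K] (z : Vec n K) (x : Vec n ℤ) :
    Prop := ∃ c : K, c ≠ 0 ∧ ∀ i l, ‖z i l - c * (x i l : K)‖ ≤ δ * ‖z‖

/-- Weak approximation to precision `m` by points of small height: for every real point `y` and every
choice of `p`-adic points `u_p` of `X_a` there is a rational point, with integral coordinates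
`|x_{il}| ≤ √H`, which is `1/m`-close to `y` and `p^(-m)`-close to `u_p` for all primes `p ≤ m`. -/
def WeakApprox {s : ℕ} {n : Fin s → ℕ} (F : ∀ i, MvPolynomial (Fin (n i)) ℤ) (m H : ℕ) (a : Fin s → ℤ) :
    Prop :=
  ∀ (y : Vec n ℝ) (u : ∀ (p : ℕ) [Fact p.Prime], Vec n ℚ_[p]), IsPoint F a y →
    (∀ (p : ℕ) [Fact p.Prime], p ≤ m → IsPoint F a (u p)) →
    ∃ x : Vec n ℤ, x ≠ 0 ∧ ∑ i, a i * aeval (x i) (F i) = (0 : ℤ) ∧ (∀ i l, (x i l) ^ 2 ≤ (H : ℤ)) ∧
      Close (1 / m) y x ∧ ∀ (p : ℕ) [Fact p.Prime], p ≤ m → Close ((p : ℝ) ^ (-(m : ℤ))) (u p) x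

/-- Let `F₁, …, F_s` be nonsingular integral forms of degree `k ≥ 3` in disjoint sets of `n i ≥ 1`
variables, not all `n i = 1`, `s ≥ 2 k + 2`. A positive proportion of the hypersurfaces
`X_a : ∑ aᵢ Fᵢ(yᵢ) = 0` is everywhere locally soluble, and one hundred percent of these satisfy the Hasse
principle and weak approximation to a precision `m(H)` tending to infinity. -/
theorem result (k s : ℕ) (n : Fin s → ℕ) (F : ∀ i, MvPolynomial (Fin (n i)) ℤ) (hk : 3 ≤ k)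
    (hs : 2 * k + 2 ≤ s) (hn : ∀ i, 1 ≤ n i) (_hn2 : ∃ i, 2 ≤ n i)
    (hF : ∀ i, (F i).IsHomogeneous k ∧ Nonsingular (F i)) :
    (∃ c : ℝ, 0 < c ∧ ∀ᶠ H : ℕ in atTop, c * (2 * (H : ℝ) + 1) ^ s ≤ ((elsSet F H).ncard : ℝ)) ∧
    ∃ m : ℕ → ℕ, Tendsto m atTop atTop ∧
      Tendsto (fun H : ℕ => (({a | a ∈ elsSet F H ∧ WeakApprox F (m H) H a} : Set (Fin s → ℤ)).ncard : ℝ) /
        ((elsSet F H).ncard : ℝ)) atTop (𝓝 1) := by
  obtain ⟨r', rfl⟩ : ∃ r', s = r' + 2 := ⟨s - 2, by omega⟩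
  have hA : Pool.Agent.H888.SF.Adm k (r' + 2) n F := ⟨hn, fun i => (hF i).1, fun i => (hF i).2⟩
  refine ⟨?_, ?_⟩
  · obtain ⟨c, hc, H1, h⟩ := Pool.Agent.H888.SF.sf_pos hA hk (by omega)
    refine ⟨c, hc, ?_⟩
    filter_upwards [eventually_ge_atTop H1] with H hH
    obtain ⟨S, hS, hSc⟩ := h H hH
    refine hSc.trans ?_
    have hfin : (elsSet F H).Finite := by
      apply Set.Finite.subset (Finset.finite_toSet (Pool.Agent.H888.DH.boxA (r' + 2) H))
      rintro a ⟨h1, -⟩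
      rw [Finset.mem_coe, Pool.Agent.H888.DH.mem_boxA]
      exact fun i => (h1 i).2
    rw [← Set.ncard_coe_finset]
    apply Nat.cast_le.mpr
    apply Set.ncard_le_ncard _ hfin
    intro a ha
    obtain ⟨h1, h2, h3⟩ := hS a (Finset.mem_coe.mp ha)
    exact ⟨fun i => ⟨h2 i, Pool.Agent.H888.DH.mem_boxA.mp h1 i⟩, h3⟩
  · refine Pool.Agent.H888.SF.tend_of_fixed
      (fun m H => (({a | a ∈ elsSet F H ∧ WeakApprox F m H a} : Set (Fin (r' + 2) → ℤ)).ncard : ℝ) /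
        ((elsSet F H).ncard : ℝ)) (fun j ε hε => ?_)
    exact Pool.Agent.H888.SF.ratio_of_bound hA hk hs (j + 2) (by omega) ε hε
      (fun H a => WeakApprox F (j + 2) H a) (fun H a _ h => h)

end Pool.Agent.Results.MP_03ef3d_ag.SumsOfForms100
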